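import Pool.Agent.W562.HY.Defs
import Pool.Agent.Helper941.Hyp.Sig

/-!
# HY-EVAL (helper636): satisfaction in coded structures is `Δ¹₁`
-/

set_option autoImplicit false

namespace Pool.Agent.W636.HY

open Encodable Denumerable Nat.Partrec Pool.Agent.Helper941 Pool.Agent.Helper941.IsoProb
open Pool.Agent.Helper941.Zeta Pool.Agent.Helper941.Hyp Pool.Agent.W562.HY

variable {α β : Type} [Primcodable α] [Primcodable β]

/-- general form of the definitions -/
theorem s11_gen {P : α → (ℕ → ℕ) → Prop} {R : α × ℕ × List ℕ × List ℕ → Prop}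
    (hR : ComputablePred R) {u : α × ℕ → ℕ} (hu : Computable u)
    (h : ∀ a g, P a g ↔ ∃ f : ℕ → ℕ, ∀ n,
      R (a, n, (List.range (u (a, n))).map g, (List.range (u (a, n))).map f)) :
    S11 P := by
  refine ⟨fun p => ∀ n < p.2.2.length, u (p.1, n) ≤ p.2.2.length →
    R (p.1, n, tk p.2.1 (u (p.1, n)), tk p.2.2 (u (p.1, n))), ?_, fun a g => ?_⟩
  · have h1 : Computable fun q : (α × List ℕ × List ℕ) × ℕ => u (q.1.1, q.2) :=
      hu.comp (c_pair (c_fst (c_fst c_id)) (c_snd c_id))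
    have h2 : Computable fun q : (α × List ℕ × List ℕ) × ℕ => q.1.2.2.length :=
      Computable.list_length.comp (c_snd (c_snd (c_fst c_id)))
    have h3 : ComputablePred fun q : (α × List ℕ × List ℕ) × ℕ =>
        R (q.1.1, q.2, tk q.1.2.1 (u (q.1.1, q.2)), tk q.1.2.2 (u (q.1.1, q.2))) :=
      computablePred_comp hR (c_pair (c_fst (c_fst c_id)) (c_pair (c_snd c_id)
        (c_pair (c_tk (c_fst (c_snd (c_fst c_id))) h1)
          (c_tk (c_snd (c_snd (c_fst c_id))) h1))))
    exact p_ball (Computable.list_length.comp (c_snd (c_snd c_id))) (p_imp (p_le h1 h2) h3)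
  · rw [h]
    refine exists_congr fun f => ?_
    constructor
    · intro h1 k n hn hk
      simp only [List.length_map, List.length_range] at hn hk ⊢
      rw [tk_range f hk, tk_range g hk]
      exact h1 n
    · intro h1 n
      have h2 := h1 (n + 1 + u (a, n)) n (by simp; omega) (by simp)
      simp only at h2
      rw [tk_range f (by omega), tk_range g (by omega)] at h2
      exact h2

theorem S11.of_iff {P Q : α → (ℕ → ℕ) → Prop} (h : S11 P) (e : ∀ a g, Q a g ↔ P a g) : S11 Q := by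
  have : Q = P := funext fun a => funext fun g => propext (e a g)
  rw [this]; exact h

theorem S11.comp {P : β → (ℕ → ℕ) → Prop} (h : S11 P) {f : α → β} (hf : Computable f) :
    S11 fun a g => P (f a) g := by
  obtain ⟨R, hR, e⟩ := h
  exact ⟨fun p => R (f p.1, p.2), computablePred_comp hR
    (c_pair (hf.comp Computable.fst) Computable.snd), fun a g => e (f a) g⟩

theorem S11.of_sigma {P : α → Prop} (h : Sigma11 P) : S11 fun a (_ : ℕ → ℕ) => P a := by
  obtain ⟨R, hR, e⟩ := h
  exact ⟨fun p => R (p.1, p.2.2), computablePred_comp hR (c_pair (c_fst c_id)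
    (c_snd (c_snd c_id))), fun a _ => e a⟩

theorem S11.val {h k : α → ℕ} (hh : Computable h) (hk : Computable k) :
    S11 fun a g => g (h a) = k a := by
  refine ⟨fun p => h p.1 < p.2.1.length → gt p.2.1 (h p.1) = k p.1, ?_, fun a g => ?_⟩
  · exact p_imp (p_lt (hh.comp (c_fst c_id)) (Computable.list_length.comp (c_fst (c_snd c_id))))
      (p_eq (c_gt (c_fst (c_snd c_id)) (hh.comp (c_fst c_id))) (hk.comp (c_fst c_id)))
  · constructor
    · intro h1
      refine ⟨fun _ => 0, fun n hn => ?_⟩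
      simp only [List.length_map, List.length_range] at hn ⊢
      rw [gt_range g hn]
      exact h1
    · rintro ⟨f, hf⟩
      have h1 := hf (h a + 1) (by simp)
      simp only at h1
      rwa [gt_range g (by omega)] at h1

theorem S11.nval {h k : α → ℕ} (hh : Computable h) (hk : Computable k) :
    S11 fun a g => ¬ g (h a) = k a := by
  refine ⟨fun p => h p.1 < p.2.1.length → ¬ gt p.2.1 (h p.1) = k p.1, ?_, fun a g => ?_⟩
  · exact p_imp (p_lt (hh.comp (c_fst c_id)) (Computable.list_length.comp (c_fst (c_snd c_id))))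
      (p_not (p_eq (c_gt (c_fst (c_snd c_id)) (hh.comp (c_fst c_id))) (hk.comp (c_fst c_id))))
  · constructor
    · intro h1
      refine ⟨fun _ => 0, fun n hn => ?_⟩
      simp only [List.length_map, List.length_range] at hn ⊢
      rw [gt_range g hn]
      exact h1
    · rintro ⟨f, hf⟩
      have h1 := hf (h a + 1) (by simp)
      simp only at h1
      rwa [gt_range g (by omega)] at h1

theorem S11.and {P Q : α → (ℕ → ℕ) → Prop} (h : S11 P) (h' : S11 Q) :
    S11 fun a g => P a g ∧ Q a g := by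
  obtain ⟨R, hR, e⟩ := h
  obtain ⟨R', hR', e'⟩ := h'
  refine s11_gen (R := fun q => R (q.1, tk q.2.2.1 q.2.1, cl q.2.2.2 0 q.2.1) ∧
      R' (q.1, tk q.2.2.1 q.2.1, cl q.2.2.2 1 q.2.1))
    (u := fun p => Nat.pair 0 p.2 + Nat.pair 1 p.2) ?_ ?_ fun a g => ?_
  · exact p_and (computablePred_comp hR (c_pair (c_fst c_id) (c_pair
      (c_tk (c_fst (c_snd (c_snd c_id))) (c_fst (c_snd c_id)))
      (c_cl (c_snd (c_snd (c_snd c_id))) (c_const 0) (c_fst (c_snd c_id))))))
      (computablePred_comp hR' (c_pair (c_fst c_id) (c_pair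
      (c_tk (c_fst (c_snd (c_snd c_id))) (c_fst (c_snd c_id)))
      (c_cl (c_snd (c_snd (c_snd c_id))) (c_const 1) (c_fst (c_snd c_id))))))
  · exact c_add (c_npair (c_const 0) (c_snd c_id)) (c_npair (c_const 1) (c_snd c_id))
  · rw [e, e']
    have hn : ∀ n, n ≤ Nat.pair 0 n + Nat.pair 1 n := fun n =>
      (Nat.right_le_pair 0 n).trans (Nat.le_add_right _ _)
    constructor
    · rintro ⟨⟨f, hf⟩, ⟨f', hf'⟩⟩
      refine ⟨fun x => if x.unpair.1 = 0 then f x.unpair.2 else f' x.unpair.2, fun n => ?_⟩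
      simp only
      rw [cl_range _ (by omega), cl_range _ (by omega), tk_range g (hn n)]
      simp only [Nat.unpair_pair]
      exact ⟨hf n, hf' n⟩
    · rintro ⟨f, hf⟩
      refine ⟨⟨fun k => f (Nat.pair 0 k), fun n => ?_⟩, ⟨fun k => f (Nat.pair 1 k), fun n => ?_⟩⟩
      · have := (hf n).1
        simp only at this
        rwa [cl_range _ (by omega), tk_range g (hn n)] at this
      · have := (hf n).2
        simp only at this
        rwa [cl_range _ (by omega), tk_range g (hn n)] at this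

theorem S11.all {P : α × ℕ → (ℕ → ℕ) → Prop} (h : S11 P) : S11 fun a g => ∀ y, P (a, y) g := by
  obtain ⟨R, hR, e⟩ := h
  refine s11_gen (R := fun q => R ((q.1, q.2.1.unpair.1), tk q.2.2.1 q.2.1.unpair.2,
    cl q.2.2.2 q.2.1.unpair.1 q.2.1.unpair.2)) (u := fun p => p.2) ?_ (c_snd c_id) fun a g => ?_
  · exact computablePred_comp hR (c_pair (c_pair (c_fst c_id) (c_up1 (c_fst (c_snd c_id))))
      (c_pair (c_tk (c_fst (c_snd (c_snd c_id))) (c_up2 (c_fst (c_snd c_id))))
      (c_cl (c_snd (c_snd (c_snd c_id))) (c_up1 (c_fst (c_snd c_id)))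
        (c_up2 (c_fst (c_snd c_id))))))
  · constructor
    · intro h1
      have h2 : ∀ y, ∃ f : ℕ → ℕ, ∀ n, R ((a, y), (List.range n).map g, (List.range n).map f) :=
        fun y => (e _ _).1 (h1 y)
      choose f hf using h2
      refine ⟨fun x => f x.unpair.1 x.unpair.2, fun n => ?_⟩
      simp only
      rw [cl_range _ (by rw [Nat.pair_unpair]), tk_range g (Nat.unpair_right_le n)]
      simp only [Nat.unpair_pair]
      exact hf _ _
    · rintro ⟨f, hf⟩ y
      refine (e _ _).2 ⟨fun k => f (Nat.pair y k), fun n => ?_⟩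
      have := hf (Nat.pair y n)
      simp only [Nat.unpair_pair] at this
      rwa [cl_range _ (le_refl _), tk_range g (Nat.right_le_pair y n)] at this

theorem S11.ex {P : α × ℕ → (ℕ → ℕ) → Prop} (h : S11 P) : S11 fun a g => ∃ y, P (a, y) g := by
  obtain ⟨R, hR, e⟩ := h
  refine s11_gen (R := fun q => R ((q.1, gt q.2.2.2 0), tk q.2.2.1 q.2.1, tl q.2.2.2 q.2.1))
    (u := fun p => p.2 + 1) ?_ (c_succ (c_snd c_id)) fun a g => ?_
  · exact computablePred_comp hR (c_pair (c_pair (c_fst c_id) (c_gt (c_snd (c_snd (c_snd c_id)))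
      (c_const 0))) (c_pair (c_tk (c_fst (c_snd (c_snd c_id))) (c_fst (c_snd c_id)))
      (c_tl (c_snd (c_snd (c_snd c_id))) (c_fst (c_snd c_id)))))
  · constructor
    · rintro ⟨y, hy⟩
      obtain ⟨f, hf⟩ := (e _ _).1 hy
      refine ⟨fun x => Nat.casesOn x y f, fun n => ?_⟩
      simp only
      rw [gt_range _ (by omega), tl_range, tk_range g (Nat.le_succ n)]
      exact hf n
    · rintro ⟨f, hf⟩
      refine ⟨f 0, (e _ _).2 ⟨fun k => f (k + 1), fun n => ?_⟩⟩
      have := hf n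
      simp only at this
      rwa [gt_range _ (by omega), tl_range, tk_range g (Nat.le_succ n)] at this

theorem S11.or {P Q : α → (ℕ → ℕ) → Prop} (h : S11 P) (h' : S11 Q) :
    S11 fun a g => P a g ∨ Q a g := by
  obtain ⟨R, hR, e⟩ := h
  obtain ⟨R', hR', e'⟩ := h'
  have h1 : S11 fun (p : α × ℕ) g => (p.2 = 0 → P p.1 g) ∧ (¬ p.2 = 0 → Q p.1 g) := by
    refine ⟨fun q => (q.1.2 = 0 → R (q.1.1, q.2)) ∧ (¬ q.1.2 = 0 → R' (q.1.1, q.2)), ?_,
      fun a g => ?_⟩
    · have h3 : ComputablePred fun q : (α × ℕ) × List ℕ × List ℕ => q.1.2 = 0 :=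
        p_eq (c_snd (c_fst c_id)) (c_const 0)
      exact p_and (p_imp h3 (computablePred_comp hR (c_pair (c_fst (c_fst c_id)) (c_snd c_id))))
        (p_imp (p_not h3) (computablePred_comp hR' (c_pair (c_fst (c_fst c_id)) (c_snd c_id))))
    · obtain ⟨a, y⟩ := a
      simp only
      rw [e, e']
      by_cases hy : y = 0
      · simp [hy]
      · simp [hy]
  refine S11.of_iff (S11.ex h1) fun a g => ?_
  constructor
  · rintro (h2 | h2)
    · exact ⟨0, fun _ => h2, fun h => (h rfl).elim⟩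
    · exact ⟨1, fun h => absurd h (by simp), fun _ => h2⟩
  · rintro ⟨y, h2, h3⟩
    by_cases hy : y = 0
    · exact Or.inl (h2 hy)
    · exact Or.inr (h3 hy)

/-! ### the calculus of `D11` -/

theorem D11.of_iff {P Q : α → (ℕ → ℕ) → Prop} (h : D11 P) (e : ∀ a g, Q a g ↔ P a g) : D11 Q := by
  have : Q = P := funext fun a => funext fun g => propext (e a g)
  rw [this]; exact h

theorem D11.comp {P : β → (ℕ → ℕ) → Prop} (h : D11 P) {f : α → β} (hf : Computable f) :
    D11 fun a g => P (f a) g := ⟨S11.comp h.1 hf, S11.comp h.2 hf⟩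

theorem D11.not {P : α → (ℕ → ℕ) → Prop} (h : D11 P) : D11 fun a g => ¬ P a g :=
  ⟨h.2, S11.of_iff h.1 fun _ _ => not_not⟩

theorem D11.and {P Q : α → (ℕ → ℕ) → Prop} (h : D11 P) (h' : D11 Q) :
    D11 fun a g => P a g ∧ Q a g :=
  ⟨S11.and h.1 h'.1, S11.of_iff (S11.or h.2 h'.2) fun _ _ => not_and_or⟩

theorem D11.ex {P : α × ℕ → (ℕ → ℕ) → Prop} (h : D11 P) : D11 fun a g => ∃ y, P (a, y) g :=
  ⟨S11.ex h.1, S11.of_iff (S11.all h.2) fun _ _ => by push Not; rfl⟩

theorem D11.val {h k : α → ℕ} (hh : Computable h) (hk : Computable k) :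
    D11 fun a g => g (h a) = k a := ⟨S11.val hh hk, S11.nval hh hk⟩

theorem D11.of_delta {P : α → Prop} (h : Delta11 P) : D11 fun a (_ : ℕ → ℕ) => P a :=
  ⟨S11.of_sigma h.1, S11.of_sigma h.2⟩

theorem main : P_eval := by
  intro φ
  induction φ with
  | num r h => exact D11.comp (D11.of_delta h) (c_fst c_id)
  | app i j k =>
    have hg : ∀ (l : List ℕ) (i : ℕ), l.getD i 0 = gt l i := fun l i => by
      simp [gt, List.getD_eq_getElem?_getD]
    have h1 : D11 fun (a : List ℕ × List ℕ × List ℕ) (z : ℕ → ℕ) =>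
        z (Nat.pair 0 (Nat.pair (gt a.2.1 i) (gt a.1 j))) = gt a.1 k :=
      D11.val (c_npair (c_const 0) (c_npair (c_gt (c_fst (c_snd c_id)) (c_const i))
        (c_gt (c_fst c_id) (c_const j)))) (c_gt (c_fst c_id) (c_const k))
    refine D11.of_iff h1 fun a z => ?_
    rw [← hg, ← hg, ← hg]
    rfl
  | mem i j k =>
    have hg : ∀ (l : List ℕ) (i : ℕ), l.getD i 0 = gt l i := fun l i => by
      simp [gt, List.getD_eq_getElem?_getD]
    have h1 : D11 fun (a : List ℕ × List ℕ × List ℕ) (z : ℕ → ℕ) =>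
        z (Nat.pair 1 (Nat.pair (gt a.2.2 i) (Nat.pair (gt a.1 j) (gt a.2.1 k)))) = 1 :=
      D11.val (c_npair (c_const 1) (c_npair (c_gt (c_snd (c_snd c_id)) (c_const i))
        (c_npair (c_gt (c_fst c_id) (c_const j)) (c_gt (c_fst (c_snd c_id)) (c_const k)))))
        (c_const 1)
    refine D11.of_iff h1 fun a z => ?_
    rw [← hg, ← hg, ← hg]
    rfl
  | neg φ ih => exact D11.not ih
  | and φ ψ ih ih' => exact D11.and ih ih'
  | exN φ ih =>
    have h1 : D11 fun (p : (List ℕ × List ℕ × List ℕ) × ℕ) (z : ℕ → ℕ) =>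
        φ.eval (str z) (p.2 :: p.1.1) p.1.2.1 p.1.2.2 :=
      D11.comp ih (f := fun p : (List ℕ × List ℕ × List ℕ) × ℕ =>
        (p.2 :: p.1.1, p.1.2.1, p.1.2.2))
        (c_pair (Computable.list_cons.comp (c_snd c_id) (c_fst (c_fst c_id)))
          (c_snd (c_fst c_id)))
    exact D11.ex h1
  | exR φ ih =>
    have h1 : D11 fun (p : (List ℕ × List ℕ × List ℕ) × ℕ) (z : ℕ → ℕ) =>
        φ.eval (str z) p.1.1 (p.2 :: p.1.2.1) p.1.2.2 :=
      D11.comp ih (f := fun p : (List ℕ × List ℕ × List ℕ) × ℕ =>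
        (p.1.1, p.2 :: p.1.2.1, p.1.2.2))
        (c_pair (c_fst (c_fst c_id)) (c_pair
          (Computable.list_cons.comp (c_snd c_id) (c_fst (c_snd (c_fst c_id))))
          (c_snd (c_snd (c_fst c_id)))))
    exact D11.ex h1
  | exC φ ih =>
    have h1 : D11 fun (p : (List ℕ × List ℕ × List ℕ) × ℕ) (z : ℕ → ℕ) =>
        φ.eval (str z) p.1.1 p.1.2.1 (p.2 :: p.1.2.2) :=
      D11.comp ih (f := fun p : (List ℕ × List ℕ × List ℕ) × ℕ =>
        (p.1.1, p.1.2.1, p.2 :: p.1.2.2))
        (c_pair (c_fst (c_fst c_id)) (c_pair (c_fst (c_snd (c_fst c_id)))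
          (Computable.list_cons.comp (c_snd c_id) (c_snd (c_snd (c_fst c_id))))))
    exact D11.ex h1

end Pool.Agent.W636.HY
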