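import Pool.Agent.W562.HY.Defs

/-!
# HY-VCPT (helper636): compactness and pigeonhole
-/

set_option autoImplicit false

namespace Pool.Agent.W636.HY.VCpt

open Encodable Denumerable Pool.Agent.W562.HY Filter

lemma dF_encode (G : Finset ℕ) : dF (encode G.toList) = G := by
  unfold dF
  rw [ofNat_encode, Finset.toList_toFinset]

theorem main : P_vCpt := by
  classical
  intro V κ m N0 hinf hva H
  change ℕ → ℕ at V κ
  choose s hs1 hs2 using H
  let U : Ultrafilter ℕ := Filter.hyperfilter ℕ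
  have hU : ∀ k : ℕ, ∀ᶠ N in (U : Filter ℕ), k < N := fun k =>
    Nat.hyperfilter_le_atTop (Filter.eventually_gt_atTop k)
  let A : Set ℕ := {x | ∀ᶠ N in (U : Filter ℕ), x ∈ dF (s N)}
  have htr : ∀ G : Finset ℕ, ∀ᶠ N in (U : Filter ℕ), ∀ x ∈ G, (x ∈ dF (s N) ↔ x ∈ A) := by
    intro G
    rw [Filter.eventually_all_finset]
    intro x _
    by_cases hx : x ∈ A
    · have hx' : ∀ᶠ N in (U : Filter ℕ), x ∈ dF (s N) := hx
      filter_upwards [hx'] with N hN
      exact ⟨fun _ => hx, fun _ => hN⟩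
    · have hx' : ∀ᶠ N in (U : Filter ℕ), ¬ x ∈ dF (s N) := by
        rw [Ultrafilter.eventually_not]
        exact hx
      filter_upwards [hx'] with N hN
      exact ⟨fun h => absurd h hN, fun h => absurd h hx⟩
  have key : ∀ k, N0 ≤ k → k ∈ KK VV κ → ∃ i < m, (vY VV V i k).Nonempty ∧
      va VV V i * (vY VV V i k).card ≤ vb VV V i * ((vY VV V i k).filter (· ∈ A)).card := by
    intro k hk0 hk
    obtain ⟨N, hN1, hN2⟩ := ((htr ((Finset.range m).biUnion (fun i => vY VV V i k))).and (hU k)).exists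
    obtain ⟨i, hi, hne, hle⟩ := hs2 N k hN2 hk0 hk
    refine ⟨i, hi, hne, ?_⟩
    have : dF (s N) ∩ vY VV V i k = (vY VV V i k).filter (· ∈ A) := by
      ext x
      simp only [Finset.mem_inter, Finset.mem_filter]
      constructor
      · rintro ⟨h1, h2⟩
        exact ⟨h2, (hN1 x (Finset.mem_biUnion.mpr ⟨i, Finset.mem_range.mpr hi, h2⟩)).1 h1⟩
      · rintro ⟨h1, h2⟩
        exact ⟨(hN1 x (Finset.mem_biUnion.mpr ⟨i, Finset.mem_range.mpr hi, h1⟩)).2 h2, h1⟩
    rwa [this] at hle
  let T : ℕ → Set ℕ := fun i => {k | N0 ≤ k ∧ k ∈ KK VV κ ∧ (vY VV V i k).Nonempty ∧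
      va VV V i * (vY VV V i k).card ≤ vb VV V i * ((vY VV V i k).filter (· ∈ A)).card}
  have hT : ∃ i < m, (T i).Infinite := by
    by_contra hcon
    push Not at hcon
    have hfin : (⋃ i ∈ Finset.range m, T i).Finite := by
      refine Set.Finite.biUnion (Finset.finite_toSet _) (fun i hi => ?_)
      exact hcon i (Finset.mem_range.mp hi)
    have hfin2 : (KK VV κ).Finite := by
      refine (hfin.union (Set.finite_lt_nat N0)).subset ?_
      intro k hk
      by_cases hk0 : N0 ≤ k
      · left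
        obtain ⟨i, hi, h1, h2⟩ := key k hk0 hk
        exact Set.mem_biUnion (Finset.mem_coe.mpr (Finset.mem_range.mpr hi)) ⟨hk0, hk, h1, h2⟩
      · right
        exact not_le.mp hk0
    exact hinf hfin2
  obtain ⟨i, hi, hTi⟩ := hT
  let Z : ℕ → ℕ := fun k => if k ∈ T i then encode ((vY VV V i k).filter (· ∈ A)).toList
    else encode (∅ : Finset ℕ).toList
  have hZ1 : ∀ k ∈ T i, blk VV Z k = (vY VV V i k).filter (· ∈ A) := by
    intro k hk
    change dF (Z k) = _
    simp only [Z, if_pos hk]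
    exact dF_encode _
  have hZ2 : ∀ k, k ∉ T i → blk VV Z k = ∅ := by
    intro k hk
    change dF (Z k) = _
    simp only [Z, if_neg hk]
    exact dF_encode _
  have hKK : KK VV Z = T i := by
    ext k
    constructor
    · intro hk
      by_contra hkT
      have : (blk VV Z k).Nonempty := hk
      rw [hZ2 k hkT] at this
      exact Finset.not_nonempty_empty this
    · intro hk
      change (blk VV Z k).Nonempty
      rw [hZ1 k hk, ← Finset.card_pos]
      obtain ⟨_, _, h3, h4⟩ := hk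
      have h5 : 0 < va VV V i * (vY VV V i k).card :=
        Nat.mul_pos (hva i hi) (Finset.card_pos.mpr h3)
      exact Nat.pos_of_mul_pos_left (h5.trans_le h4)
  refine ⟨i, hi, Z, ?_, ?_, ?_, ?_, ?_⟩
  · intro k
    by_cases hk : k ∈ T i
    · rw [hZ1 k hk]; exact Finset.filter_subset _ _
    · rw [hZ2 k hk]; exact Finset.empty_subset _
  · rw [hKK]; exact hTi
  · rw [hKK]; exact fun k hk => hk.2.1
  · rw [hKK]
    intro k hk
    rw [hZ1 k hk]
    exact hk.2.2.2
  · intro E hE
    have h1 : ∀ x ∈ dF E, ∃ k, x ∈ A ∧ x ∈ vY VV V i k := by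
      intro x hx
      obtain ⟨k, hk⟩ := hE x hx
      have hkT : k ∈ T i := by
        by_contra hkT
        rw [hZ2 k hkT] at hk
        exact absurd hk (Finset.notMem_empty _)
      rw [hZ1 k hkT, Finset.mem_filter] at hk
      exact ⟨k, hk.2, hk.1⟩
    have h2 : ∀ᶠ N in (U : Filter ℕ), ∀ x ∈ dF E, x ∈ dF (s N) ∧ ∃ k < N, x ∈ vY VV V i k := by
      rw [Filter.eventually_all_finset]
      intro x hx
      obtain ⟨k, hxA, hxk⟩ := h1 x hx
      have hxA' : ∀ᶠ N in (U : Filter ℕ), x ∈ dF (s N) := hxA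
      filter_upwards [hxA', hU k] with N hN hkN
      exact ⟨hN, k, hkN, hxk⟩
    obtain ⟨N, hN⟩ := h2.exists
    exact hs1 N i hi E (fun x hx => (hN x hx).1) (fun x hx => (hN x hx).2)

end Pool.Agent.W636.HY.VCpt
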